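import Mathlib

/-!
# Superclub, inseparable families, Luzin sequences
-/

namespace Pool.Agent.H172Z.Stick

/-- The countable ordinals, as a well ordered type. -/
abbrev W1 : Type := (Ordinal.omega 1).ToType

/-- A superclub sequence exists. -/
def Superclub : Prop :=
  ∃ S : W1 → Set W1, (∀ α, S α ⊆ Set.Iio α) ∧
    ∀ A : Set W1, ¬ A.Countable →
      ∃ B : Set W1, B ⊆ A ∧ ¬ B.Countable ∧ IsStationary {α | B ∩ Set.Iio α = S α}

/-- A family of infinite sets of naturals with pairwise finite intersections. -/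
def AlmostDisjoint (A : W1 → Set ℕ) : Prop :=
  (∀ β, (A β).Infinite) ∧ ∀ β γ, β ≠ γ → (A β ∩ A γ).Finite

/-- Uncountably many members are almost inside `B`, uncountably many almost inside its
complement. -/
def Separates (B : Set ℕ) (A : W1 → Set ℕ) : Prop :=
  ¬ {β | (A β \ B).Finite}.Countable ∧ ¬ {β | (A β \ Bᶜ).Finite}.Countable

/-- Almost disjoint and separated by no infinite set. -/
def Inseparable (A : W1 → Set ℕ) : Prop :=
  AlmostDisjoint A ∧ ∀ B : Set ℕ, B.Infinite → ¬ Separates B A

/-- A Luzin sequence. -/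
def IsLuzin (A : W1 → Set ℕ) : Prop :=
  AlmostDisjoint A ∧ ∀ (α : W1) (n : ℕ), {β | β < α ∧ A α ∩ A β ⊆ Set.Iio n}.Finite

/-- Some uncountable subfamily, enumerated increasingly, is a Luzin sequence. -/
def HasLuzinSubsequence (A : W1 → Set ℕ) : Prop :=
  ∃ e : W1 → W1, StrictMono e ∧ IsLuzin (fun β => A (e β))

end Pool.Agent.H172Z.Stick
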