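import Mathlib

/-!
# One step of the construction of an eventually different family
-/

namespace Pool.Agent.H172Z.Stick

open Filter

theorem exists_lim {I : Type} (f : I → ℕ → ℕ) (T : Set I) :
    ∃ L : ℕ → Set ℕ, (∀ m, (L m).Subsingleton) ∧ (T.Infinite → ∀ (M : ℕ) (g : ℕ → ℕ) (Av : Finset I),
      ∃ γ ∈ T, γ ∉ Av ∧ ∀ m < M, g m ∉ L m → f γ m ≠ g m) := by
  by_cases hT : T.Infinite
  · have h1 : (cofinite ⊓ Filter.principal T).NeBot := by
      rw [← frequently_mem_iff_neBot, frequently_cofinite_mem_iff_infinite]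
      exact hT
    obtain ⟨U, hU⟩ := Ultrafilter.exists_le (cofinite ⊓ Filter.principal T)
    refine ⟨fun m => {v | ∀ᶠ i in (U : Filter I), f i m = v}, fun m v hv w hw => ?_,
      fun _ M g Av => ?_⟩
    · obtain ⟨i, h2, h3⟩ := (Eventually.and hv hw).exists
      rw [← h2, ← h3]
    · have h2 : ∀ᶠ i in (U : Filter I), i ∈ T :=
        (hU.trans inf_le_right) (mem_principal_self T)
      have h3 : ∀ᶠ i in (U : Filter I), i ∉ Av :=
        (hU.trans inf_le_left) (Av.eventually_cofinite_notMem)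
      have h4 : ∀ᶠ i in (U : Filter I), ∀ m ∈ Finset.range M,
          g m ∉ {v | ∀ᶠ i in (U : Filter I), f i m = v} → f i m ≠ g m := by
        rw [Finset.eventually_all]
        intro m _
        by_cases h5 : g m ∈ {v | ∀ᶠ i in (U : Filter I), f i m = v}
        · exact Eventually.of_forall fun i h6 => (h6 h5).elim
        · have h6 : ∀ᶠ i in (U : Filter I), ¬ f i m = g m := Ultrafilter.eventually_not.2 h5
          exact h6.mono fun i h7 _ => h7
      obtain ⟨i, h5, h6, h7⟩ := (h2.and (h3.and h4)).exists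
      exact ⟨i, h5, h6, fun m hm => h7 m (Finset.mem_range.2 hm)⟩
  · exact ⟨fun _ => ∅, fun _ => Set.subsingleton_empty, fun h => (hT h).elim⟩

theorem exists_hit {I : Type} (f : I → ℕ → ℕ) (hf : ∀ i j, i ≠ j → {m | f i m = f j m}.Finite)
    (L : ℕ → ℕ → Set ℕ) (hL : ∀ k m, (L k m).Subsingleton) (T : Set I) (hT : T.Infinite)
    (Av : Finset I) (t M : ℕ) :
    ∃ i ∈ T, ∃ m, M ≤ m ∧ (∀ j ∈ Av, f i m ≠ f j m) ∧ ∀ k ≤ t, f i m ∉ L k m := by
  classical
  obtain ⟨S, hS, hc⟩ := (hT.sdiff Av.finite_toSet).exists_subset_card_eq (t + 2)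
  have h1 : ∀ᶠ m in atTop, ∀ i ∈ S ∪ Av, ∀ j ∈ S ∪ Av, i ≠ j → f i m ≠ f j m := by
    rw [Finset.eventually_all]
    intro i _
    rw [Finset.eventually_all]
    intro j _
    by_cases h : i = j
    · exact Eventually.of_forall fun m h2 => (h2 h).elim
    · have h2 := (hf i j h).eventually_cofinite_notMem
      rw [Nat.cofinite_eq_atTop] at h2
      exact h2.mono fun m h3 _ => h3
  obtain ⟨m, h2, h3⟩ := (h1.and (eventually_ge_atTop M)).exists
  by_contra hcon
  push Not at hcon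
  have h4 : ∀ i ∈ S, ∃ k ∈ Finset.range (t + 1), f i m ∈ L k m := by
    intro i hi
    have h5 := hS hi
    obtain ⟨k, h6, h7⟩ := hcon i h5.1 m h3 fun j hj =>
      h2 i (Finset.mem_union_left _ hi) j (Finset.mem_union_right _ hj)
        fun h => h5.2 (h ▸ hj)
    exact ⟨k, Finset.mem_range.2 (by omega), h7⟩
  choose! κ h5 h6 using h4
  obtain ⟨i, hi, j, hj, hij, h7⟩ := Finset.exists_ne_map_eq_of_card_lt_of_maps_to
    (s := S) (t := Finset.range (t + 1)) (by rw [hc, Finset.card_range]; omega) (f := κ) h5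
  exact h2 i (Finset.mem_union_left _ hi) j (Finset.mem_union_left _ hj) hij
    (hL (κ j) m (h7 ▸ h6 i hi) (h6 j hj))

theorem exists_free {I : Type} (f : I → ℕ → ℕ) (L : ℕ → ℕ → Set ℕ)
    (hL : ∀ k m, (L k m).Subsingleton) (Av : Finset I) (t m : ℕ) :
    ∃ v, (∀ j ∈ Av, v ≠ f j m) ∧ ∀ k ≤ t, v ∉ L k m := by
  have h1 : ((fun j => f j m) '' (Av : Set I) ∪ ⋃ k ∈ Set.Iic t, L k m).Finite :=
    (Av.finite_toSet.image _).union ((Set.finite_Iic t).biUnion fun k _ => (hL k m).finite)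
  obtain ⟨v, hv⟩ := h1.exists_notMem
  refine ⟨v, fun j hj h => hv (Or.inl ⟨j, hj, h.symm⟩), fun k hk h => hv (Or.inr ?_)⟩
  exact Set.mem_biUnion (Set.mem_Iic.2 hk) h

theorem exists_step {I : Type} [Countable I] (f : I → ℕ → ℕ)
    (hf : ∀ i j, i ≠ j → {m | f i m = f j m}.Finite) (T : ℕ → Set I) :
    ∃ g : ℕ → ℕ, (∀ i, {m | g m = f i m}.Finite) ∧
      (∀ k, (T k).Infinite → ∀ n, ∃ i ∈ T k, ∃ m, n ≤ m ∧ g m = f i m) ∧
      (∀ k, (T k).Infinite → ∃ n, {i | i ∈ T k ∧ ∀ m, n ≤ m → g m ≠ f i m}.Infinite) := by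
  classical
  choose L hL1 hL2 using fun k => exists_lim f (T k)
  obtain ⟨c, hc⟩ := exists_injective_nat I
  have hstep : ∀ (t : ℕ) (s : ℕ × (ℕ → ℕ) × Finset I), ∃ s' : ℕ × (ℕ → ℕ) × Finset I,
      s.1 < s'.1 ∧ (∀ m < s.1, s'.2.1 m = s.2.1 m) ∧
      (∀ m, s.1 ≤ m → m < s'.1 → (∀ j ∈ s.2.2, s'.2.1 m ≠ f j m) ∧ ∀ k ≤ t, s'.2.1 m ∉ L k m) ∧
      s.2.2 ⊆ s'.2.2 ∧ (∀ j, c j = t → j ∈ s'.2.2) ∧
      ((T (Nat.unpair t).1).Infinite →
        (∃ i ∈ T (Nat.unpair t).1, ∃ m, s.1 ≤ m ∧ m < s'.1 ∧ s'.2.1 m = f i m) ∧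
        ∃ γ ∈ T (Nat.unpair t).1, γ ∈ s'.2.2 ∧ γ ∉ s.2.2 ∧
          ∀ m < s'.1, s'.2.1 m ∉ L (Nat.unpair t).1 m → f γ m ≠ s'.2.1 m) := by
    rintro t ⟨M, g, Av⟩
    choose v hv1 hv2 using exists_free f L hL1 Av t
    have hfin : {j | c j = t}.Finite :=
      Set.Subsingleton.finite fun a ha b hb => hc (ha.trans hb.symm)
    by_cases hT : (T (Nat.unpair t).1).Infinite
    · obtain ⟨i, h1, m0, h2, h3, h4⟩ := exists_hit f hf L hL1 _ hT Av t M
      let g' : ℕ → ℕ := fun m => if m < M then g m else if m = m0 then f i m0 else v m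
      obtain ⟨γ, h5, h6, h7⟩ := hL2 _ hT (m0 + 1) g' Av
      refine ⟨(m0 + 1, g', insert γ (Av ∪ hfin.toFinset)), by simp only; omega,
        fun m hm => if_pos hm, fun m h8 _ => ?_,
        fun j hj => Finset.mem_insert_of_mem (Finset.mem_union_left _ hj),
        fun j hj => Finset.mem_insert_of_mem (Finset.mem_union_right _ (hfin.mem_toFinset.2 hj)),
        fun _ => ⟨⟨i, h1, m0, h2, by simp only; omega, ?_⟩,
          γ, h5, Finset.mem_insert_self _ _, h6, h7⟩⟩
      · have h9 : ¬ m < M := not_lt.2 h8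
        by_cases h10 : m = m0
        · have : g' m = f i m := by
            simp only [g', if_neg h9, if_pos h10]
            rw [h10]
          simp only [this]
          rw [h10]
          exact ⟨h3, h4⟩
        · have : g' m = v m := by simp only [g', if_neg h9, if_neg h10]
          simp only [this]
          exact ⟨hv1 m, hv2 m⟩
      · have h9 : ¬ m0 < M := not_lt.2 h2
        simp only [g', if_neg h9, if_true]
    · refine ⟨(M + 1, fun m => if m < M then g m else v m, Av ∪ hfin.toFinset),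
        by simp only; omega, fun m hm => if_pos hm, fun m h8 _ => ?_,
        fun j hj => Finset.mem_union_left _ hj,
        fun j hj => Finset.mem_union_right _ (hfin.mem_toFinset.2 hj), fun h => (hT h).elim⟩
      have h9 : ¬ m < M := not_lt.2 h8
      simp only [if_neg h9]
      exact ⟨hv1 m, hv2 m⟩
  choose F hF using hstep
  let s : ℕ → ℕ × (ℕ → ℕ) × Finset I := fun t => Nat.rec (0, fun _ => 0, ∅) (fun t x => F t x) t
  have hs : ∀ t, s (t + 1) = F t (s t) := fun _ => rfl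
  have hM : StrictMono fun t => (s t).1 := strictMono_nat_of_lt_succ fun t => (hF t (s t)).1
  have hA : Monotone fun t => (s t).2.2 := monotone_nat_of_le_succ fun t => (hF t (s t)).2.2.2.1
  have hstab : ∀ t t', t ≤ t' → ∀ m < (s t).1, (s t').2.1 m = (s t).2.1 m := by
    intro t t' h
    induction h with
    | refl => exact fun _ _ => rfl
    | step h ih =>
      intro m hm
      rw [← ih m hm]
      exact (hF _ _).2.1 m (lt_of_lt_of_le hm (hM.monotone h))
  let g : ℕ → ℕ := fun m => (s (m + 1)).2.1 m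
  have hg : ∀ t m, m < (s t).1 → g m = (s t).2.1 m := by
    intro t m hm
    have h1 : m < (s (m + 1)).1 := lt_of_lt_of_le (Nat.lt_succ_self m) (hM.le_apply (x := m + 1))
    rcases le_total t (m + 1) with h | h
    · exact hstab _ _ h m hm
    · exact (hstab _ _ h m h1).symm
  have hloc : ∀ t0 m, (s t0).1 ≤ m → (∀ j ∈ (s t0).2.2, g m ≠ f j m) ∧ ∀ k ≤ t0, g m ∉ L k m := by
    intro t0 m hm
    have h1 : ∃ t, m < (s (t + 1)).1 :=
      ⟨m, lt_of_lt_of_le (Nat.lt_succ_self m) (hM.le_apply (x := m + 1))⟩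
    have h2 := Nat.find_spec h1
    set t := Nat.find h1 with ht
    have h3 : (s t).1 ≤ m := by
      rcases Nat.eq_zero_or_pos t with h | h
      · rw [h]; exact Nat.zero_le _
      · have h4 := Nat.find_min h1 (m := t - 1) (by omega)
        rw [Nat.sub_add_cancel h] at h4
        exact not_lt.1 h4
    have h4 : t0 ≤ t := by
      have h6 : (s t0).1 < (s (t + 1)).1 := lt_of_le_of_lt hm h2
      have h7 : t0 < t + 1 := (hM.lt_iff_lt (a := t0) (b := t + 1)).1 h6
      omega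
    have h5 := (hF t (s t)).2.2.1 m h3 h2
    rw [hg (t + 1) m h2]
    exact ⟨fun j hj => h5.1 j (hA h4 hj), fun k hk => h5.2 k (hk.trans h4)⟩
  refine ⟨g, fun i => ?_, fun k hk n => ?_, fun k hk => ⟨(s k).1, ?_⟩⟩
  · refine (Set.finite_Iio (s (c i + 1)).1).subset fun m hm => ?_
    by_contra h
    exact (hloc (c i + 1) m (not_lt.1 h)).1 i ((hF _ _).2.2.2.2.1 i rfl) hm
  · have h1 := (hF (Nat.pair k n) (s (Nat.pair k n))).2.2.2.2.2
    rw [Nat.unpair_pair] at h1
    obtain ⟨i, h2, m, h3, h4, h5⟩ := (h1 hk).1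
    refine ⟨i, h2, m, ?_, (hg (Nat.pair k n + 1) m h4).trans h5⟩
    exact ((Nat.right_le_pair k n).trans (hM.le_apply (x := Nat.pair k n))).trans h3
  · have h1 : ∀ r, ∃ γ ∈ T k, γ ∈ (s (Nat.pair k r + 1)).2.2 ∧ γ ∉ (s (Nat.pair k r)).2.2 ∧
        ∀ m, (s k).1 ≤ m → g m ≠ f γ m := by
      intro r
      have h1 := (hF (Nat.pair k r) (s (Nat.pair k r))).2.2.2.2.2
      rw [Nat.unpair_pair] at h1
      obtain ⟨γ, h2, h3, h4, h5⟩ := (h1 hk).2
      refine ⟨γ, h2, h3, h4, fun m hm => ?_⟩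
      by_cases h6 : m < (s (Nat.pair k r + 1)).1
      · have h7 := (hloc k m hm).2 k le_rfl
        rw [hg (Nat.pair k r + 1) m h6] at h7 ⊢
        exact (h5 m h6 h7).symm
      · exact (hloc (Nat.pair k r + 1) m (not_lt.1 h6)).1 γ h3
    choose γ h2 h3 h4 h5 using h1
    have h6 : ∀ r r', r < r' → γ r ≠ γ r' := by
      intro r r' h h7
      have h8 : Nat.pair k r + 1 ≤ Nat.pair k r' := Nat.pair_lt_pair_right k h
      exact h4 r' (h7 ▸ hA h8 (h3 r))
    refine Set.infinite_of_injective_forall_mem (f := γ) (fun r r' h => ?_) fun r => ⟨h2 r, h5 r⟩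
    rcases lt_trichotomy r r' with h7 | h7 | h7
    · exact (h6 _ _ h7 h).elim
    · exact h7
    · exact (h6 _ _ h7 h.symm).elim

end Pool.Agent.H172Z.Stick
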