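import Mathlib
import Pool.Agent.H172Z.Stick.Defs
import Pool.Agent.H172Z.Stick.Step

/-!
# An inseparable family without Luzin subsequence from a guessing family
-/

namespace Pool.Agent.H172Z.Stick

open Cardinal

theorem mk_W1 : #W1 = ℵ_ 1 := by
  rw [mk_toType, ← ord_aleph, card_ord]

theorem not_countable_W1 : ¬ Countable W1 := by
  rw [← mk_le_aleph0_iff, mk_W1, not_le]
  exact aleph0_lt_aleph_one

theorem countable_Iio (α : W1) : (Set.Iio α).Countable := by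
  have h : #(Set.Iio α) < #W1 := Cardinal.mk_Iio_lt α (by simp [W1])
  rw [← Cardinal.le_aleph0_iff_set_countable]
  have h1 : #W1 = Order.succ ℵ₀ := by
    rw [mk_W1]; exact succ_aleph0.symm
  exact Order.lt_succ_iff.1 (h.trans_eq h1)

theorem countable_Iic (s : W1) : (Set.Iic s).Countable := by
  rw [← Set.Iio_insert]
  exact (countable_Iio s).insert s

theorem exists_gt_mem {X : Set W1} (hX : ¬ X.Countable) (u : W1) : ∃ α ∈ X, u < α := by
  by_contra h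
  push Not at h
  exact hX ((countable_Iic u).mono h)

theorem exists_bound (S : Set W1) (hS : S.Countable) : ∃ u, ∀ s ∈ S, s < u := by
  by_contra hcon
  push Not at hcon
  apply not_countable_W1
  have h1 : (Set.univ : Set W1) ⊆ ⋃ s ∈ S, Set.Iic s := by
    intro u _
    obtain ⟨s, hs, hu⟩ := hcon u
    exact Set.mem_biUnion hs hu
  exact Set.countable_univ_iff.1 ((hS.biUnion fun s _ => countable_Iic s).mono h1)

theorem stick (h : Superclub) : ∃ S : W1 → Set W1, (∀ α, S α ⊆ Set.Iio α) ∧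
    ∀ A : Set W1, ¬ A.Countable → ∃ δ, (S δ).Infinite ∧ S δ ⊆ A := by
  obtain ⟨S, h1, h2⟩ := h
  refine ⟨S, h1, fun A hA => ?_⟩
  obtain ⟨B, h3, h4, h5⟩ := h2 A hA
  have h6 : B.Infinite := fun h => h4 h.countable
  obtain ⟨C, h7, h8, h9⟩ : ∃ C, C ⊆ B ∧ C.Infinite ∧ C.Countable :=
    ⟨Set.range fun n => (h6.natEmbedding B n).1, by rintro _ ⟨n, rfl⟩; exact (h6.natEmbedding B n).2,
      Set.infinite_range_of_injective
        (Subtype.val_injective.comp (h6.natEmbedding B).injective), Set.countable_range _⟩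
  obtain ⟨u, hu⟩ := exists_bound C h9
  have h10 : IsClub (Set.Ici u) := by
    refine ⟨fun d h11 h12 _ a h13 => ?_, fun x => ⟨max x u, le_max_right x u, le_max_left x u⟩⟩
    obtain ⟨y, hy⟩ := h12
    exact le_trans (h11 hy) (h13.1 hy)
  obtain ⟨δ, h11, h12⟩ := h5 h10
  refine ⟨δ, ?_, ?_⟩
  · rw [← h11]
    exact h8.mono fun x hx => ⟨h7 hx, lt_of_lt_of_le (hu x hx) h12⟩
  · rw [← h11]
    exact fun x hx => h3 hx.1

theorem exists_family (S : W1 → Set W1) (hS : ∀ α, S α ⊆ Set.Iio α) : ∃ f : W1 → ℕ → ℕ,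
    (∀ α β, α ≠ β → {m | f α m = f β m}.Finite) ∧
      ∀ α δ, δ ≤ α → (S δ).Infinite →
        (∀ n, ∃ i ∈ S δ, ∃ m, n ≤ m ∧ f α m = f i m) ∧
          ∃ n, {i | i ∈ S δ ∧ ∀ m, n ≤ m → f α m ≠ f i m}.Infinite := by
  have hstep : ∀ (α : W1) (h : ∀ β, β < α → ℕ → ℕ), ∃ g : ℕ → ℕ,
      (∀ β γ hβ hγ, β ≠ γ → {m | h β hβ m = h γ hγ m}.Finite) →
      (∀ β hβ, {m | g m = h β hβ m}.Finite) ∧ ∀ δ, δ ≤ α → (S δ).Infinite →
        (∀ n, ∃ i ∈ S δ, ∃ hi, ∃ m, n ≤ m ∧ g m = h i hi m) ∧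
          ∃ n, {i | i ∈ S δ ∧ ∃ hi, ∀ m, n ≤ m → g m ≠ h i hi m}.Infinite := by
    intro α h
    by_cases h0 : ∀ β γ hβ hγ, β ≠ γ → {m | h β hβ m = h γ hγ m}.Finite
    swap
    · exact ⟨fun _ => 0, fun h1 => (h0 h1).elim⟩
    have : Countable (Set.Iio α) := (countable_Iio α).to_subtype
    obtain ⟨d, hd⟩ := (countable_Iic α).exists_eq_range ⟨α, Set.self_mem_Iic⟩
    obtain ⟨g, h1, h2, h3⟩ := exists_step (I := Set.Iio α) (fun i => h i.1 i.2)
      (fun i j hij => h0 _ _ _ _ fun h4 => hij (Subtype.ext h4))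
      (fun k => Subtype.val ⁻¹' S (d k))
    refine ⟨g, fun _ => ⟨fun β hβ => h1 ⟨β, hβ⟩, fun δ hδ h4 => ?_⟩⟩
    obtain ⟨k, rfl⟩ : δ ∈ Set.range d := hd ▸ hδ
    have h5 : (Subtype.val ⁻¹' S (d k) : Set (Set.Iio α)).Infinite := by
      refine h4.preimage fun x hx => ?_
      exact ⟨⟨x, lt_of_lt_of_le (hS _ hx) hδ⟩, rfl⟩
    refine ⟨fun n => ?_, ?_⟩
    · obtain ⟨i, h6, m, h7, h8⟩ := h2 k h5 n
      exact ⟨i.1, h6, i.2, m, h7, h8⟩
    · obtain ⟨n, h6⟩ := h3 k h5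
      refine ⟨n, (h6.image Subtype.val_injective.injOn).mono ?_⟩
      rintro _ ⟨i, h7, rfl⟩
      exact ⟨h7.1, i.2, h7.2⟩
  choose G hG using hstep
  let f : W1 → ℕ → ℕ := (wellFounded_lt (α := W1)).fix G
  have hf : ∀ α, f α = G α fun β _ => f β := fun α => (wellFounded_lt (α := W1)).fix_eq G α
  have h1 : ∀ α β, β < α → {m | f α m = f β m}.Finite := by
    intro α
    induction α using (wellFounded_lt (α := W1)).induction with
    | _ α ih =>
      intro β hβ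
      have h2 := hG α (fun β _ => f β) fun β γ hβ hγ hne => by
        rcases lt_or_gt_of_ne hne with h | h
        · exact (ih γ hγ β h).subset fun m hm => hm.symm
        · exact ih β hβ γ h
      rw [← hf α] at h2
      exact h2.1 β hβ
  have h2 : ∀ α β, α ≠ β → {m | f α m = f β m}.Finite := by
    intro α β hne
    rcases lt_or_gt_of_ne hne with h | h
    · exact (h1 β α h).subset fun m hm => hm.symm
    · exact h1 α β h
  refine ⟨f, h2, fun α δ hδ h3 => ?_⟩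
  have h4 := hG α (fun β _ => f β) fun β γ _ _ hne => h2 β γ hne
  rw [← hf α] at h4
  obtain ⟨h5, n, h6⟩ := h4.2 δ hδ h3
  refine ⟨fun n => ?_, n, h6.mono fun i hi => ⟨hi.1, hi.2.2⟩⟩
  obtain ⟨i, h7, _, m, h8, h9⟩ := h5 n
  exact ⟨i, h7, m, h8, h9⟩

theorem main (h : Superclub) : ∃ A : W1 → Set ℕ, Inseparable A ∧ ¬ HasLuzinSubsequence A := by
  obtain ⟨S, hS1, hS2⟩ := stick h
  obtain ⟨f, hf1, hf2⟩ := exists_family S hS1
  refine ⟨fun α => Set.range fun m => Nat.pair m (f α m), ⟨⟨fun α => ?_, fun β γ hne => ?_⟩,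
    fun B _ hB => ?_⟩, ?_⟩
  · exact Set.infinite_range_of_injective fun m m' h1 => (Nat.pair_eq_pair.1 h1).1
  · refine ((hf1 β γ hne).image fun m => Nat.pair m (f β m)).subset ?_
    rintro _ ⟨⟨m, rfl⟩, m', h1⟩
    obtain ⟨h2, h3⟩ := Nat.pair_eq_pair.1 h1
    subst h2
    exact ⟨m', h3.symm, rfl⟩
  · obtain ⟨h1, h2⟩ := hB
    have h3 : ∃ n, ¬ {β | (Set.range fun m => Nat.pair m (f β m)) \ Bᶜ ⊆ Set.Iio n}.Countable := by
      by_contra h3
      push Not at h3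
      refine h2 ((Set.countable_iUnion h3).mono fun β hβ => ?_)
      obtain ⟨n, hn⟩ := Set.Finite.bddAbove hβ
      exact Set.mem_iUnion.2 ⟨n + 1, fun x hx => Nat.lt_succ_of_le (hn hx)⟩
    obtain ⟨n, h3⟩ := h3
    obtain ⟨δ, h4, h5⟩ := hS2 _ h3
    obtain ⟨α, h6, h7⟩ := exists_gt_mem h1 δ
    obtain ⟨n', hn'⟩ := Set.Finite.bddAbove h6
    obtain ⟨i, h8, m, h9, h10⟩ := (hf2 α δ h7.le h4).1 (n + n' + 1)
    have h11 := Nat.left_le_pair m (f α m)
    have h12 : Nat.pair m (f α m) ∈ B := by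
      by_contra h12
      have : Nat.pair m (f α m) ≤ n' := hn' ⟨⟨m, rfl⟩, h12⟩
      omega
    have h13 : Nat.pair m (f α m) < n := h5 h8 ⟨⟨m, by rw [h10]⟩, fun h13 => h13 h12⟩
    omega
  · rintro ⟨e, he, _, h1⟩
    have h2 : ¬ (Set.range e).Countable := fun h2 =>
      not_countable_W1 (Set.countable_univ_iff.1
        (Set.countable_of_injective_of_countable_image (he.injective.injOn (s := Set.univ))
          (by rwa [Set.image_univ])))
    obtain ⟨δ, h3, h4⟩ := hS2 _ h2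
    obtain ⟨_, ⟨α, rfl⟩, h5⟩ := exists_gt_mem h2 δ
    obtain ⟨n, h6⟩ := (hf2 (e α) δ h5.le h3).2
    obtain ⟨n', hn'⟩ := ((Set.finite_Iio n).image fun m => Nat.pair m (f (e α) m)).bddAbove
    refine h6 (((h1 α (n' + 1)).image e).subset fun i hi => ?_)
    obtain ⟨β, rfl⟩ := h4 hi.1
    refine ⟨β, ⟨he.lt_iff_lt.1 ((hS1 δ hi.1).trans h5), ?_⟩, rfl⟩
    rintro _ ⟨⟨m, rfl⟩, m', h7⟩
    obtain ⟨h8, h9⟩ := Nat.pair_eq_pair.1 h7
    subst h8
    have h10 : m' < n := by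
      by_contra h10
      exact hi.2 m' (not_lt.1 h10) h9.symm
    exact Nat.lt_succ_of_le (hn' ⟨m', h10, rfl⟩)

end Pool.Agent.H172Z.Stick
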